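import Pool.Agent.Q56.MF.Geo
import Pool.Agent.H914R2.CPart
import Pool.Agent.H447R3.NumB
import Pool.Agent.Q56.BR.Main

/-!
# Operators of Tate type, algebraic classes and transcendental classes
-/

open CategoryTheory AlgebraicGeometry Polynomial Finset

universe u v

set_option linter.unusedSectionVars false

namespace Pool.Agent.Q56.MF

open Pool.Agent.H914 Pool.Agent.H447 Pool.Agent.W534 VarClass Obj WeilCohomology Pool.Agent.Q56.BR

variable {k : Type u} [Field k] {𝒱 : VarClass k} {ops : CycleOps 𝒱}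
  {W : WeilCohomology.{u, v} ops} {X : 𝒱.Obj} {p : ℕ} {Φ : FrobSystem W p}

/-- Operators of the type of a Tate class of codimension `j` on the square. -/
def TateOp (Φ : FrobSystem W p) (X : 𝒱.Obj) (j : ℕ) (y : Module.End W.K (W.H X)) : Prop :=
  IsHom (W.gr X) (2 * ((j : ℤ) - X.dim)) y ∧ ∃ M, 0 < M ∧ ∀ r, ∀ x,
    (card Φ X (M * r) : W.K) ^ j • y (frob Φ X (M * r) x) =
      (card Φ X (M * r) : W.K) ^ X.dim • frob Φ X (M * r) (y x)

lemma tateOp_iff {j : ℕ} {c : W.H (X.prod X)} :
    IsTate Φ (X.prod X) j c ↔ TateOp Φ X j (W.corr c) := by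
  constructor
  · intro h
    exact ⟨corr_isHom W h.1, tate_comm Φ h⟩
  · rintro ⟨h1, M, hM, h2⟩
    exact tate_of_comm Φ (mem_gr_of_isHom h1) hM h2

/-- The adjoint of an operator of Tate type. -/
lemma TateOp.exists_adjoint {j : ℕ} {y : Module.End W.K (W.H X)} (hy : TateOp Φ X j y) :
    ∃ y', TateOp Φ X j y' ∧ ∀ a b, W.tr X (y a * b) = W.tr X (a * y' b) := by
  set γ := (corrEquiv W X).symm y with hγ
  have hγy : W.corr γ = y := (corrEquiv W X).apply_symm_apply y
  have h1 : IsTate Φ (X.prod X) j γ := by rw [tateOp_iff, hγy]; exact hy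
  refine ⟨W.corr (W.map (swap X X) γ), ?_, fun a b => ?_⟩
  · rw [← tateOp_iff]
    exact (tateFam Φ).map (swap X X) h1
  · rw [← hγy]
    exact tr_corr_swap h1.1 a b

/-- Frobenius on the span of the algebraic classes, for multiples. -/
lemma exists_eig (Φ : FrobSystem W p) (X : 𝒱.Obj) (l : ℕ) : ∃ t, 0 < t ∧ ∀ r, ∀ c ∈ spanCycles W X l,
    frob Φ X (t * r) c = (card Φ X (t * r) : W.K) ^ l • c := by
  obtain ⟨t, ht, h⟩ := exists_span_eig Φ X l
  refine ⟨t, ht, fun r c hc => ?_⟩
  have h1 := h c hc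
  rw [frob_apply, card_pow] at h1
  rw [frob_apply, card_pow]
  exact frob_mul Φ h1 r

/-- Operators of Tate type preserve the algebraic classes, if the Tate conjecture holds. -/
lemma TateOp.map_span (hT : ∀ j, TateIn Φ X j) {j : ℕ} {y : Module.End W.K (W.H X)}
    (hy : TateOp Φ X j y) {l : ℕ} {u : W.H X} (hu : u ∈ spanCycles W X l) :
    y u ∈ spanCycles W X ((l : ℤ) + j - X.dim) := by
  obtain ⟨hyh, M, hM, h2⟩ := hy
  have hgr := hyh ((2 * l : ℕ) : ℤ) u (by rw [grZ_natCast]; exact H914.span_gr hu)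
  by_cases hneg : (l : ℤ) + j - X.dim < 0
  · rw [grZ_of_neg (by push_cast; omega)] at hgr
    rw [(Submodule.mem_bot _).1 hgr]
    exact Submodule.zero_mem _
  push Not at hneg
  obtain ⟨q, hq⟩ := Int.eq_ofNat_of_zero_le hneg
  rw [hq]
  apply hT q
  have hq' : l + j = q + X.dim := by
    have : (l : ℤ) + j - X.dim = q := hq
    omega
  refine ⟨?_, ?_⟩
  · rw [show ((2 * l : ℕ) : ℤ) + 2 * ((j : ℤ) - X.dim) = ((2 * q : ℕ) : ℤ) by push_cast; omega,
      grZ_natCast] at hgr
    exact hgr
  · obtain ⟨t, ht, h3⟩ := exists_eig Φ X l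
    refine ⟨M * t, Nat.mul_pos hM ht, ?_⟩
    have h4 := h2 t u
    have h5 := h3 M u hu
    rw [mul_comm t M] at h5
    rw [h5, map_smul, smul_smul, ← pow_add, show j + l = X.dim + q by omega, pow_add,
      mul_smul] at h4
    have h6 := smul_right_injective (W.H X)
      (pow_ne_zero X.dim (card_ne Φ (Z := X) (M * t))) h4
    rw [← card_pow]
    exact h6.symm

/-- Operators of Tate type preserve the transcendental classes, if the Tate conjecture holds. -/
lemma TateOp.map_trans (hT : ∀ j, TateIn Φ X j) {j : ℕ} {y : Module.End W.K (W.H X)}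
    (hy : TateOp Φ X j y) {a : W.H X} (ha : a ∈ transcendental W X) :
    y a ∈ transcendental W X := by
  obtain ⟨y', hy', hadj⟩ := hy.exists_adjoint
  rw [mem_trans]
  intro l c hc
  rw [bil_apply, hadj]
  have h1 := hy'.map_span hT (alg_mem_span hc)
  rw [mem_trans] at ha
  have key : ∀ i : ℤ, ∀ u ∈ spanCycles W X i, W.tr X (a * u) = 0 := by
    intro i u hu
    induction hu using Submodule.span_induction with
    | mem u hu =>
      obtain ⟨p, hp, z, hz, rfl⟩ := hu
      exact ha p _ ⟨z, hz, rfl⟩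
    | zero => rw [mul_zero, map_zero]
    | add x y _ _ hx hy => rw [mul_add, map_add, hx, hy, add_zero]
    | smul q x _ hx => rw [mul_smul_comm, map_smul, hx, smul_zero]
  exact key _ _ h1

/-- The projectors to the algebraic classes are adjoint on the whole span. -/
lemma adj_span {π : ℕ → Module.End W.K (W.H X)} (h : CProj W X π) {l : ℕ} (hl : l ≤ X.dim)
    (a : W.H X) {c : W.H X} (hc : c ∈ spanCycles W X ((X.dim - l : ℕ) : ℤ)) :
    bil W X (π l a) c = bil W X a c := by
  rw [spanCycles_eq] at hc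
  induction hc using Submodule.span_induction with
  | mem c hc => exact h.adj l hl a c hc
  | zero => rw [map_zero, map_zero]
  | add x y _ _ hx hy => rw [map_add, map_add, hx, hy]
  | smul q x _ hx => rw [map_smul, map_smul, hx]

/-- Operators on the algebraic classes are algebraic. -/
lemma kop_of_span (hDX : HomEqNum W X) {π : ℕ → Module.End W.K (W.H X)} (h : CProj W X π)
    {l l' : ℕ} (hl : l ≤ X.dim) {B : Module.End W.K (W.H X)}
    (hB : ∀ u ∈ spanCycles W X l, B u ∈ spanCycles W X l') :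
    B * π l ∈ KOp W X X ((l' : ℤ) - l) := by
  obtain ⟨N, c, c', hc, hc', hcc, hU, hU'⟩ := exists_dual_families (bil W X)
    (spanCycles W X l) (spanCycles W X ((X.dim - l : ℕ) : ℤ))
    (fun u hu hz => cNondeg hDX (show l + (X.dim - l) = X.dim by omega) hu
      (fun b hb => hz b (alg_mem_span hb)))
    (fun u' hu' hz => cNondeg hDX (show (X.dim - l) + l = X.dim by omega) hu' (fun b hb => by
      rw [bil_even (H914.span_gr hu')]
      exact hz b (alg_mem_span hb)))
  have h1 : B * π l = ∑ i, ((bil W X).flip (c' i)).smulRight (B (c i)) := by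
    apply LinearMap.ext
    intro a
    rw [Module.End.mul_apply, LinearMap.sum_apply]
    conv_lhs => rw [hU _ (h.mem l a)]
    rw [map_sum]
    apply Finset.sum_congr rfl
    intro i _
    rw [map_smul, adj_span h hl a (hc' i)]
    rfl
  rw [h1]
  apply Submodule.sum_mem
  intro i _
  exact KOp.cast (rankOne_mem (hB _ (hc i)) (hc' i)) (by
    rw [Nat.cast_sub hl]; ring)

end Pool.Agent.Q56.MF
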