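import Pool.Agent.W534.TateDefs
import Pool.Agent.H914R2.HodgeDefs

/-!
# Varieties with simple Frobenius spectrum
-/

open CategoryTheory AlgebraicGeometry

universe u v

namespace Pool.Agent.Q56.MF

open Pool.Agent.H914 Pool.Agent.W534 VarClass Obj WeilCohomology

variable {k : Type u} [Field k] {𝒱 : VarClass k} {ops : CycleOps 𝒱}

/-- The operator `f` preserves the subspace `S`, and its characteristic polynomial on `S` has no
multiple root. -/
def SeparableOn {K V : Type*} [Field K] [AddCommGroup V] [Module K V] [Module.Finite K V]
    (f : V → V) (S : Submodule K V) : Prop :=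
  ∃ G : Module.End K S, (∀ a, (G a : V) = f a) ∧ G.charpoly.Separable

/-- The transcendental cohomology of `X` has simple Frobenius spectrum: for every `s ≥ 1` and every
`i` the characteristic polynomial of the Frobenius relative to the extension of degree `s` on the
space of the classes in `H^i(X)` orthogonal to all cycle classes has no multiple root. -/
def SimpleSpectrum {W : WeilCohomology.{u, v} ops} {p : ℕ} (Φ : FrobSystem W p) (X : 𝒱.Obj) :
    Prop :=
  ∀ s : ℕ, 0 < s → ∀ i : ℕ, SeparableOn (fun a => W.map (W534.iter (Φ.Fr X) s) a)
    (transcendental W X ⊓ W.gr X i)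

end Pool.Agent.Q56.MF
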