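import Pool.Agent.W534.Tate
import Pool.Agent.W534.PoleB

/-!
# Tate classes on the square as operators commuting with Frobenius
-/

open CategoryTheory AlgebraicGeometry

universe u v

set_option linter.unusedSectionVars false

namespace Pool.Agent.Q56.MF

open Pool.Agent.H914 Pool.Agent.H447 Pool.Agent.W534 VarClass Obj WeilCohomology

variable {k : Type u} [Field k] {𝒱 : VarClass k} {ops : CycleOps 𝒱}
  {W : WeilCohomology.{u, v} ops} {X : 𝒱.Obj} {p : ℕ} (Φ : FrobSystem W p)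

/-- Frobenius on the square and on the factors. -/
lemma exists_prod (X : 𝒱.Obj) : ∃ a b : ℕ, 0 < a ∧ 0 < b ∧ a * Φ.e (X.prod X) = b * Φ.e X ∧
    ∀ (t : ℕ) (x : W.H X),
      frob Φ (X.prod X) (a * t) (W.map (fst X X) x) = W.map (fst X X) (frob Φ X (b * t) x) ∧
      frob Φ (X.prod X) (a * t) (W.map (snd X X) x) = W.map (snd X X) (frob Φ X (b * t) x) := by
  obtain ⟨a1, b1, ha1, hb1, h1, h1'⟩ := frob_comm Φ (fst X X)
  obtain ⟨a2, b2, ha2, hb2, h2, h2'⟩ := frob_comm Φ (snd X X)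
  have hb : b1 * a2 = b2 * a1 := by
    apply Nat.eq_of_mul_eq_mul_right (Φ.e_pos X)
    calc b1 * a2 * Φ.e X = (b1 * Φ.e X) * a2 := by ring
      _ = a1 * (a2 * Φ.e (X.prod X)) := by rw [← h1]; ring
      _ = b2 * a1 * Φ.e X := by rw [h2]; ring
  refine ⟨a1 * a2, b1 * a2, Nat.mul_pos ha1 ha2, Nat.mul_pos hb1 ha2, ?_, ?_⟩
  · calc a1 * a2 * Φ.e (X.prod X) = (a1 * Φ.e (X.prod X)) * a2 := by ring
      _ = b1 * a2 * Φ.e X := by rw [h1]; ring
  · intro t x
    constructor
    · rw [frob_apply, frob_apply, show a1 * a2 * t = a1 * (a2 * t) by ring,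
        show b1 * a2 * t = b1 * (a2 * t) by ring]
      exact h1' (a2 * t) x
    · rw [frob_apply, frob_apply, show a1 * a2 * t = a2 * (a1 * t) by ring, hb,
        show b2 * a1 * t = b2 * (a1 * t) by ring]
      exact h2' (a1 * t) x

/-- Correspondences and Frobenius. -/
lemma corr_frob (X : 𝒱.Obj) : ∃ a b : ℕ, 0 < a ∧ 0 < b ∧
    (∀ t, card Φ (X.prod X) (a * t) = card Φ X (b * t)) ∧
    ∀ (t : ℕ) (c : W.H (X.prod X)) (x : W.H X),
      W.corr (frob Φ (X.prod X) (a * t) c) (frob Φ X (b * t) x) =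
        (card Φ X (b * t) : W.K) ^ X.dim • frob Φ X (b * t) (W.corr c x) := by
  obtain ⟨a, b, ha, hb, hab, h⟩ := exists_prod Φ X
  have hcard : ∀ t, card Φ (X.prod X) (a * t) = card Φ X (b * t) := by
    intro t
    rw [card, card]
    congr 1
    calc Φ.e (X.prod X) * (a * t) = (a * Φ.e (X.prod X)) * t := by ring
      _ = Φ.e X * (b * t) := by rw [hab]; ring
  refine ⟨a, b, ha, hb, hcard, fun t c x => ?_⟩
  set N := a * t with hN
  set M := b * t with hM
  have hcP : (card Φ X M : W.K) ≠ 0 := card_ne Φ M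
  apply W.tr_ext
  intro y'
  obtain ⟨y, rfl⟩ := map_iter_surjective Φ M y'
  rw [corr_apply, ← (h t x).1, ← frob_apply, W.tr_push]
  have e1 : frob Φ (X.prod X) N c * frob Φ (X.prod X) N (W.map (fst X X) x) *
      W.map (snd X X) (frob Φ X M y) =
      W.map (W534.iter (Φ.Fr (X.prod X)) N) (c * W.map (fst X X) x * W.map (snd X X) y) := by
    rw [← (h t y).2, frob_apply, frob_apply, frob_apply, map_mul, map_mul]
  rw [e1, tr_iter, ← card_pow, hcard t, dim_prod, ← W.tr_push, ← corr_apply]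
  have e2 : (card Φ X M : W.K) ^ X.dim • frob Φ X M (W.corr c x) * frob Φ X M y =
      (card Φ X M : W.K) ^ X.dim • W.map (W534.iter (Φ.Fr X) M) (W.corr c x * y) := by
    rw [smul_mul_assoc, frob_apply, frob_apply, map_mul]
  rw [e2, map_smul, tr_iter, ← card_pow, smul_eq_mul, ← mul_assoc, ← pow_add]

/-- A Tate class on the square commutes with Frobenius. -/
lemma tate_comm {j : ℕ} {c : W.H (X.prod X)} (hc : IsTate Φ (X.prod X) j c) :
    ∃ M, 0 < M ∧ ∀ r, ∀ x, (card Φ X (M * r) : W.K) ^ j • W.corr c (frob Φ X (M * r) x) =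
      (card Φ X (M * r) : W.K) ^ X.dim • frob Φ X (M * r) (W.corr c x) := by
  obtain ⟨a, b, ha, hb, hcard, h⟩ := corr_frob Φ X
  obtain ⟨-, s, hs, hsc⟩ := hc
  refine ⟨b * s, Nat.mul_pos hb hs, fun r x => ?_⟩
  rw [show b * s * r = b * (s * r) by ring, ← h (s * r) c x]
  have h1 : frob Φ (X.prod X) (a * (s * r)) c =
      (card Φ X (b * (s * r)) : W.K) ^ j • c := by
    have := frob_mul Φ hsc (a * r)
    rw [show s * (a * r) = a * (s * r) by ring] at this
    rw [frob_apply, this, ← card_pow, hcard]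
  rw [h1]
  exact congrArg (fun F : Module.End W.K (W.H X) => F (frob Φ X (b * (s * r)) x))
    (corr_smul W _ _).symm

/-- A class on the square which commutes with Frobenius is a Tate class. -/
lemma tate_of_comm {j : ℕ} {c : W.H (X.prod X)} (hc : c ∈ W.gr (X.prod X) (2 * j)) {M : ℕ}
    (hM : 0 < M) (h : ∀ r, ∀ x, (card Φ X (M * r) : W.K) ^ j • W.corr c (frob Φ X (M * r) x) =
      (card Φ X (M * r) : W.K) ^ X.dim • frob Φ X (M * r) (W.corr c x)) :
    IsTate Φ (X.prod X) j c := by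
  obtain ⟨a, b, ha, hb, hcard, hab⟩ := corr_frob Φ X
  refine ⟨hc, a * M, Nat.mul_pos ha hM, ?_⟩
  rw [← card_pow, hcard M, ← sub_eq_zero]
  apply corr_inj
  apply LinearMap.ext
  intro y
  obtain ⟨x, rfl⟩ := map_iter_surjective Φ (b * M) y
  have h1 := hab M c x
  have h2 := h b x
  rw [show M * b = b * M by ring] at h2
  rw [← h2] at h1
  rw [corr_sub'', corr_smul, LinearMap.zero_apply, LinearMap.sub_apply, LinearMap.smul_apply,
    sub_eq_zero]
  exact h1

end Pool.Agent.Q56.MF
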