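import Pool.Agent.Q56.AN.Lin

/-!
# Intertwining operators between spaces on which an operator has distinct eigenvalues
-/

open Polynomial Finset Module TensorProduct

namespace Pool.Agent.Q56.MF

open Pool.Agent.Q56.AN

section Eig

variable {L : Type*} [Field L] {A B : Type*} [AddCommGroup A] [Module L A] [AddCommGroup B]
  [Module L B] {d e : ℕ}

/-- Two eigenvectors for the same eigenvalue are proportional. -/
lemma eig_unique (b : Basis (Fin e) L B) {H : Module.End L B} {z : Fin e → L}
    (hz : Function.Injective z) (hH : ∀ j, H (b j) = z j • b j) {μ : L} {u v : B}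
    (hu : H u = μ • u) (hv : H v = μ • v) (hv0 : v ≠ 0) : ∃ c : L, u = c • v := by
  have hcoord : ∀ w : B, H w = μ • w → ∀ j, b.repr w j ≠ 0 → z j = μ := by
    intro w hw j hj
    have h1 : b.repr (H w) j = z j * b.repr w j := by
      conv_lhs => rw [← b.sum_repr w]
      rw [map_sum, map_sum, Finsupp.finsetSum_apply, Finset.sum_eq_single j]
      · rw [map_smul, hH, smul_smul, map_smul, Finsupp.smul_apply, b.repr_self,
          Finsupp.single_eq_same, smul_eq_mul, mul_one, mul_comm]
      · intro l _ hl
        rw [map_smul, hH, smul_smul, map_smul, Finsupp.smul_apply, b.repr_self,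
          Finsupp.single_eq_of_ne (Ne.symm hl), smul_zero]
      · intro h; exact absurd (Finset.mem_univ _) h
    rw [hw, map_smul, Finsupp.smul_apply, smul_eq_mul] at h1
    exact (mul_right_cancel₀ hj h1).symm
  obtain ⟨j, hj⟩ : ∃ j, b.repr v j ≠ 0 := by
    by_contra hcon
    push Not at hcon
    apply hv0
    apply b.repr.injective
    rw [map_zero]
    ext j
    exact hcon j
  have hzj := hcoord v hv j hj
  refine ⟨b.repr u j / b.repr v j, ?_⟩
  apply b.repr.injective
  ext l
  rw [map_smul, Finsupp.smul_apply, smul_eq_mul]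
  by_cases hl : l = j
  · subst hl; rw [div_mul_cancel₀ _ hj]
  · have h1 : b.repr u l = 0 := by
      by_contra h; exact hl (hz ((hcoord u hu l h).trans hzj.symm))
    have h2 : b.repr v l = 0 := by
      by_contra h; exact hl (hz ((hcoord v hv l h).trans hzj.symm))
    rw [h1, h2, mul_zero]

lemma comm_aeval' {G : Module.End L A} {H : Module.End L B} {κ : L} {f : A →ₗ[L] B}
    (h : ∀ a, H (f a) = κ • f (G a)) (r : ℕ) : ∀ a, (H ^ r) (f a) = κ ^ r • f ((G ^ r) a) := by
  induction r with
  | zero => intro a; simp
  | succ r ih =>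
    intro a
    rw [pow_succ, Module.End.mul_apply, h, map_smul, ih, smul_smul, pow_succ κ, mul_comm,
      pow_succ G, Module.End.mul_apply]

/-- Over an algebraically closed field an intertwining operator is a multiple of a given one on
each eigenvector. -/
lemma exists_scalar (a : Basis (Fin d) L A) (b : Basis (Fin e) L B) {G : Module.End L A}
    {H : Module.End L B} {x : Fin d → L} {z : Fin e → L} (hx : Function.Injective x)
    (hz : Function.Injective z) (hG : ∀ i, G (a i) = x i • a i) (hH : ∀ j, H (b j) = z j • b j)
    {κ : L} (hκ : κ ≠ 0) {l y : A →ₗ[L] B} (hl : ∀ v, H (l v) = κ • l (G v))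
    (hy : ∀ v, H (y v) = κ • y (G v))
    (hls : Function.Injective l ∨ Function.Surjective l) (i : Fin d) :
    ∃ c : L, y (a i) = c • l (a i) := by
  have h1 : H (l (a i)) = (κ * x i) • l (a i) := by rw [hl, hG, map_smul, smul_smul]
  have h2 : H (y (a i)) = (κ * x i) • y (a i) := by rw [hy, hG, map_smul, smul_smul]
  by_cases h0 : l (a i) = 0
  · have hs : Function.Surjective l := by
      rcases hls with h | h
      · exact absurd (h (h0.trans (map_zero l).symm)) (a.ne_zero i)
      · exact h
    refine ⟨0, ?_⟩
    rw [zero_smul]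
    obtain ⟨w, hw⟩ := hs (y (a i))
    -- the polynomial vanishing at the other eigenvalues
    set P : L[X] := ∏ k ∈ Finset.univ.erase i, (X - C (κ * x k)) with hP
    have hPi : P.eval (κ * x i) ≠ 0 := by
      rw [hP, eval_prod, Finset.prod_ne_zero_iff]
      intro k hk
      rw [eval_sub, eval_X, eval_C, ← mul_sub]
      exact mul_ne_zero hκ (sub_ne_zero.2 (fun h => (Finset.ne_of_mem_erase hk) (hx h).symm))
    have hPk : ∀ k, k ≠ i → P.eval (κ * x k) = 0 := by
      intro k hk
      rw [hP, eval_prod]
      apply Finset.prod_eq_zero (Finset.mem_erase.2 ⟨hk, Finset.mem_univ k⟩)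
      rw [eval_sub, eval_X, eval_C, sub_self]
    have hev : ∀ (v : B) (μ : L), H v = μ • v → aeval H P v = P.eval μ • v := by
      intro v μ hv
      have hpow : ∀ r : ℕ, (H ^ r) v = μ ^ r • v := by
        intro r
        induction r with
        | zero => simp
        | succ r ih => rw [pow_succ, Module.End.mul_apply, hv, map_smul, ih, smul_smul, pow_succ']
      generalize P = P'
      induction P' using Polynomial.induction_on' with
      | add p q hp hq => rw [map_add, LinearMap.add_apply, hp, hq, eval_add, add_smul]
      | monomial r c =>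
        rw [aeval_monomial, Algebra.algebraMap_eq_smul_one, smul_mul_assoc, one_mul,
          LinearMap.smul_apply, hpow, smul_smul, eval_monomial]
    have e1 : aeval H P (y (a i)) = P.eval (κ * x i) • y (a i) := hev _ _ h2
    have e2 : aeval H P (y (a i)) = 0 := by
      rw [← hw, ← a.sum_repr w, map_sum, map_sum]
      apply Finset.sum_eq_zero
      intro k _
      rw [map_smul, map_smul]
      by_cases hk : k = i
      · subst hk; rw [h0, map_zero, smul_zero]
      · rw [hev _ (κ * x k) (by rw [hl, hG, map_smul, smul_smul]), hPk k hk, zero_smul, smul_zero]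
    rw [e2] at e1
    exact (smul_eq_zero.1 e1.symm).resolve_left hPi
  · exact eig_unique b hz hH h2 h1 h0

end Eig

variable {K : Type*} [Field K] {A B : Type*} [AddCommGroup A] [Module K A]
  [Module.Finite K A] [AddCommGroup B] [Module K B] [Module.Finite K B]

/-- Over an algebraic closure an operator whose characteristic polynomial is separable has a basis
of eigenvectors with distinct eigenvalues. -/
lemma exists_eigenbasis {G : Module.End K A} (hG : G.charpoly.Separable) :
    ∃ (x : Fin (finrank K A) → AlgebraicClosure K)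
      (a : Basis (Fin (finrank K A)) (AlgebraicClosure K) (AlgebraicClosure K ⊗[K] A)),
      Function.Injective x ∧ ∀ i, LinearMap.baseChange (AlgebraicClosure K) G (a i) =
        x i • a i := by
  classical
  have hcard : Fintype.card (G.charpoly.rootSet (AlgebraicClosure K)) = finrank K A := by
    rw [card_rootSet_eq_natDegree hG (IsAlgClosed.splits _), G.charpoly_natDegree]
  set e : Fin (finrank K A) ≃ G.charpoly.rootSet (AlgebraicClosure K) :=
    (Fintype.equivFinOfCardEq hcard).symm with he
  set x : Fin (finrank K A) → AlgebraicClosure K := fun i => (e i : AlgebraicClosure K) with hx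
  have hxinj : Function.Injective x := fun i j h => e.injective (Subtype.ext h)
  set G' := LinearMap.baseChange (AlgebraicClosure K) G with hG'
  have hev : ∀ i, ∃ v, Module.End.HasEigenvector G' (x i) v := by
    intro i
    have h1 : G'.charpoly.IsRoot (x i) := by
      rw [hG', LinearMap.charpoly_baseChange, IsRoot.def, eval_map_algebraMap]
      exact (mem_rootSet.1 (e i).2).2
    exact ((Module.End.hasEigenvalue_iff_isRoot_charpoly G' (x i)).2 h1).exists_hasEigenvector
  choose v hv using hev
  have hlin := Module.End.eigenvectors_linearIndependent' G' x hxinj v hv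
  rcases Nat.eq_zero_or_pos (finrank K A) with hd0 | hdpos
  · have : Subsingleton (AlgebraicClosure K ⊗[K] A) :=
      (Module.finrank_zero_iff (R := AlgebraicClosure K)).1
        (by rw [Module.finrank_baseChange]; exact hd0)
    exact ⟨x, (finBasis (AlgebraicClosure K) (AlgebraicClosure K ⊗[K] A)).reindex
      (finCongr (Module.finrank_baseChange)), hxinj, fun i => Subsingleton.elim _ _⟩
  have : Nonempty (Fin (finrank K A)) := ⟨⟨0, hdpos⟩⟩
  set b : Basis (Fin (finrank K A)) (AlgebraicClosure K) (AlgebraicClosure K ⊗[K] A) :=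
    basisOfLinearIndependentOfCardEqFinrank hlin
      (by rw [Fintype.card_fin, Module.finrank_baseChange]) with hb
  refine ⟨x, b, hxinj, fun i => ?_⟩
  rw [hb, coe_basisOfLinearIndependentOfCardEqFinrank]
  exact (hv i).apply_eq_smul

omit [Module.Finite K A] [Module.Finite K B] in
lemma exists_factor_aux {L : Type*} [Field L] [Algebra K L] {d e : ℕ} {x : Fin d → L}
    {z : Fin e → L} (a : Basis (Fin d) L (L ⊗[K] A)) (b : Basis (Fin e) L (L ⊗[K] B))
    (hx : Function.Injective x) (hz : Function.Injective z)
    {G : Module.End K A} {H : Module.End K B}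
    (ha : ∀ i, LinearMap.baseChange L G (a i) = x i • a i)
    (hb : ∀ i, LinearMap.baseChange L H (b i) = z i • b i)
    {κ : K} (hκ : κ ≠ 0) {l y : A →ₗ[K] B}
    (hl : ∀ v, H (l v) = κ • l (G v)) (hy : ∀ v, H (y v) = κ • y (G v))
    (hls : Function.Injective l ∨ Function.Surjective l) :
    ∃ g : K[X], ∀ v, y v = l (aeval G g v) := by
  classical
  have hbc : ∀ {f : A →ₗ[K] B}, (∀ v, H (f v) = κ • f (G v)) →
      ∀ v, LinearMap.baseChange L H (LinearMap.baseChange L f v) =
        (algebraMap K L κ) • LinearMap.baseChange L f (LinearMap.baseChange L G v) := by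
    intro f hf v
    induction v using TensorProduct.induction_on with
    | zero => simp
    | tmul c v =>
      rw [LinearMap.baseChange_tmul, LinearMap.baseChange_tmul, LinearMap.baseChange_tmul,
        LinearMap.baseChange_tmul, hf, TensorProduct.tmul_smul, algebraMap_smul]
    | add u v hu hv => simp only [map_add, smul_add, hu, hv]
  have hls' : Function.Injective (LinearMap.baseChange L l) ∨
      Function.Surjective (LinearMap.baseChange L l) := by
    rcases hls with h | h
    · left
      exact Module.Flat.lTensor_preserves_injective_linearMap l h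
    · right
      exact LinearMap.lTensor_surjective L h
  have hsc := exists_scalar a b hx hz ha hb
    ((map_ne_zero (algebraMap K L)).2 hκ) (hbc hl) (hbc hy) hls'
  choose c hc using hsc
  set g : L[X] := Lagrange.interpolate Finset.univ x c with hg
  have hgx : ∀ i, g.eval (x i) = c i := fun i =>
    Lagrange.eval_interpolate_at_node c hx.injOn (Finset.mem_univ i)
  have key : ∀ v : A, LinearMap.baseChange L y (1 ⊗ₜ v) =
      LinearMap.baseChange L l (aeval (LinearMap.baseChange L G) g (1 ⊗ₜ v)) := by
    have : LinearMap.baseChange L y =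
        LinearMap.baseChange L l ∘ₗ aeval (LinearMap.baseChange L G) g := by
      apply a.ext
      intro i
      rw [LinearMap.comp_apply, aeval_diag (K := L) a ha g i, map_smul, hc]
      congr 1
      rw [coe_aeval_eq_eval, hgx]
    intro v
    rw [this, LinearMap.comp_apply]
  -- descent
  obtain ⟨ρ, hρ⟩ : ∃ ρ : L →ₗ[K] K, ρ 1 = 1 := by
    have hinj : LinearMap.ker (Algebra.linearMap K L) = ⊥ := by
      rw [LinearMap.ker_eq_bot]; exact (algebraMap K L).injective
    obtain ⟨ρ, hρ⟩ := LinearMap.exists_leftInverse_of_injective (Algebra.linearMap K L) hinj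
    refine ⟨ρ, ?_⟩
    have := congrArg (fun F => F (1 : K)) hρ
    simpa using this
  set R : L ⊗[K] B →ₗ[K] B := (TensorProduct.lid K B).toLinearMap ∘ₗ LinearMap.rTensor B ρ
    with hR
  have hRt : ∀ (s : L) (w : B), R (s ⊗ₜ w) = ρ s • w := by
    intro s w
    rw [hR, LinearMap.comp_apply, LinearMap.rTensor_tmul, LinearEquiv.coe_coe,
      TensorProduct.lid_tmul]
  refine ⟨∑ r ∈ g.support, C (ρ (g.coeff r)) * X ^ r, fun v => ?_⟩
  have h1 := congrArg R (key v)
  rw [LinearMap.baseChange_tmul, hRt, hρ, one_smul] at h1
  rw [h1, aeval_eq_sum_range' (n := g.natDegree + 1) (Nat.lt_succ_self _)]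
  have hpow : ∀ r : ℕ, (LinearMap.baseChange L G ^ r) ((1 : L) ⊗ₜ[K] v) = 1 ⊗ₜ (G ^ r) v := by
    intro r
    rw [← LinearMap.baseChange_pow, LinearMap.baseChange_tmul]
  rw [LinearMap.sum_apply, map_sum, map_sum]
  have hterm : ∀ r, R (LinearMap.baseChange L l ((g.coeff r • LinearMap.baseChange L G ^ r)
      ((1 : L) ⊗ₜ[K] v))) = ρ (g.coeff r) • l ((G ^ r) v) := by
    intro r
    rw [LinearMap.smul_apply, hpow, map_smul, LinearMap.baseChange_tmul,
      TensorProduct.smul_tmul', smul_eq_mul, mul_one, hRt]
  rw [Finset.sum_congr rfl (fun r _ => hterm r)]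
  rw [map_sum, LinearMap.sum_apply, map_sum]
  have hterm' : ∀ r, l (aeval G (C (ρ (g.coeff r)) * X ^ r) v) =
      ρ (g.coeff r) • l ((G ^ r) v) := by
    intro r
    rw [map_mul, aeval_C, map_pow, aeval_X, Algebra.algebraMap_eq_smul_one, smul_mul_assoc,
      one_mul, LinearMap.smul_apply, map_smul]
  rw [Finset.sum_congr rfl (fun r _ => hterm' r)]
  symm
  apply Finset.sum_subset
  · intro r hr
    rw [Finset.mem_range, Nat.lt_succ_iff]
    exact le_natDegree_of_mem_supp r hr
  · intro r _ hr
    rw [notMem_support_iff.1 hr, map_zero, zero_smul]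

/-- **Factorisation of intertwining operators.** Let the operators `G` on `A` and `H` on `B` have
separable characteristic polynomials and let `l` and `y` intertwine `κ G` and `H`. If `l` is
injective or surjective then `y` is the composite of `l` with a polynomial in `G`. -/
theorem exists_factor {G : Module.End K A} {H : Module.End K B} (hG : G.charpoly.Separable)
    (hH : H.charpoly.Separable) {κ : K} (hκ : κ ≠ 0) {l y : A →ₗ[K] B}
    (hl : ∀ v, H (l v) = κ • l (G v)) (hy : ∀ v, H (y v) = κ • y (G v))
    (hls : Function.Injective l ∨ Function.Surjective l) :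
    ∃ g : K[X], ∀ v, y v = l (aeval G g v) := by
  obtain ⟨x, a, hx, ha⟩ := exists_eigenbasis hG
  obtain ⟨z, b, hz, hb⟩ := exists_eigenbasis hH
  exact exists_factor_aux a b hx hz ha hb hκ hl hy hls

end Pool.Agent.Q56.MF
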