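import Pool.Agent.Q56.MF.Lin
import Pool.Agent.Q56.MF.Alg
import Pool.Agent.Q56.MF.Defs

/-!
# The Tate conjecture for the square of a variety with simple Frobenius spectrum
-/

open CategoryTheory AlgebraicGeometry Polynomial Finset

universe u v

set_option linter.unusedSectionVars false

namespace Pool.Agent.Q56.MF

open Pool.Agent.H914 Pool.Agent.H447 Pool.Agent.W534 VarClass Obj WeilCohomology Pool.Agent.Q56.BR

variable {k : Type u} [Field k] {𝒱 : VarClass k} {ops : CycleOps 𝒱}
  {W : WeilCohomology.{u, v} ops} {X : 𝒱.Obj} {p : ℕ} {Φ : FrobSystem W p}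

/-- Powers of the Lefschetz operator and Frobenius. -/
lemma exists_L {D : X.Cycles} (hD : X.IsCyc 1 D) : ∃ s, 0 < s ∧ ∀ r m (x : W.H X),
    frob Φ X (s * r) ((LinearMap.mulLeft W.K (W.cl X D) ^ m) x) =
      (card Φ X (s * r) : W.K) ^ m • (LinearMap.mulLeft W.K (W.cl X D) ^ m)
        (frob Φ X (s * r) x) := by
  obtain ⟨s, hs, h⟩ := Φ.cyc hD
  refine ⟨s, hs, fun r m x => ?_⟩
  have h1 : frob Φ X (s * r) (W.cl X D) = (card Φ X (s * r) : W.K) • W.cl X D := by
    rw [frob_apply, frob_mul Φ h r, ← card_pow, pow_one]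
  have h1' : W.map (W534.iter (Φ.Fr X) (s * r)) (W.cl X D) =
      (card Φ X (s * r) : W.K) • W.cl X D := h1
  rw [H914.mulLeft_pow_apply, H914.mulLeft_pow_apply, frob_apply, map_mul, map_pow, h1', _root_.smul_pow,
    smul_mul_assoc, frob_apply]

lemma TateOp.L_left {D : X.Cycles} (hD : X.IsCyc 1 D) {j : ℕ} {y : Module.End W.K (W.H X)}
    (hy : TateOp Φ X j y) (r : ℕ) :
    TateOp Φ X (j + r) (LinearMap.mulLeft W.K (W.cl X D) ^ r * y) := by
  obtain ⟨h1, M, hM, h2⟩ := hy
  obtain ⟨s, hs, hsL⟩ := exists_L (Φ := Φ) hD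
  have hLh : IsHom (W.gr X) 2 (LinearMap.mulLeft W.K (W.cl X D)) := isHom_mulLeft W hD
  refine ⟨?_, M * s, Nat.mul_pos hM hs, fun t x => ?_⟩
  · have h3 : IsHom (W.gr X) (r * 2) (LinearMap.mulLeft W.K (W.cl X D) ^ r) := hLh.pow r
    have := h3.mul h1
    convert this using 1
    push_cast; ring
  · have e1 := h2 (s * t) x
    rw [← mul_assoc] at e1
    have e2 := hsL (M * t) r (y x)
    rw [show s * (M * t) = M * s * t by ring] at e2
    rw [Module.End.mul_apply, Module.End.mul_apply, e2, pow_add, mul_comm ((card Φ X _ : W.K) ^ j),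
      mul_smul, ← map_smul, e1, map_smul, smul_smul, smul_smul, mul_comm]

lemma TateOp.L_right {D : X.Cycles} (hD : X.IsCyc 1 D) {j : ℕ} {y : Module.End W.K (W.H X)}
    (hy : TateOp Φ X j y) (r : ℕ) :
    TateOp Φ X (j + r) (y * LinearMap.mulLeft W.K (W.cl X D) ^ r) := by
  obtain ⟨h1, M, hM, h2⟩ := hy
  obtain ⟨s, hs, hsL⟩ := exists_L (Φ := Φ) hD
  have hLh : IsHom (W.gr X) 2 (LinearMap.mulLeft W.K (W.cl X D)) := isHom_mulLeft W hD
  refine ⟨?_, M * s, Nat.mul_pos hM hs, fun t x => ?_⟩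
  · have h3 : IsHom (W.gr X) (r * 2) (LinearMap.mulLeft W.K (W.cl X D) ^ r) := hLh.pow r
    have := h1.mul h3
    convert this using 1
    push_cast; ring
  · have e1 := h2 (s * t) ((LinearMap.mulLeft W.K (W.cl X D) ^ r) x)
    rw [← mul_assoc] at e1
    have e2 := hsL (M * t) r x
    rw [show s * (M * t) = M * s * t by ring] at e2
    rw [Module.End.mul_apply, Module.End.mul_apply, ← e1, e2, map_smul, smul_smul, pow_add]

/-- The inverses of the powers of the Lefschetz operator are of Tate type. -/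
lemma tateOp_isInv {D : X.Cycles} (hD : X.IsCyc 1 D) (hHL : HardLefschetz W X D) {c : ℕ}
    (hc : c ≤ X.dim) {T : Module.End W.K (W.H X)}
    (hT : IsInv (W.gr X) X.dim (LinearMap.mulLeft W.K (W.cl X D)) c T) :
    TateOp Φ X (X.dim - c) T := by
  obtain ⟨s, hs, hsL⟩ := exists_L (Φ := Φ) hD
  refine ⟨?_, s, hs, fun t x => ?_⟩
  · have := hT.isHom (W.isInternal X) hHL hc
    convert this using 1
    push_cast [Nat.cast_sub hc]; ring
  · set F := frob Φ X (s * t) with hF
    set Q : W.K := (card Φ X (s * t) : W.K) with hQ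
    have hFgr : ∀ i, ∀ a ∈ W.gr X i, F a ∈ W.gr X i := fun i a ha => W.map_mem _ ha
    refine gr_induction (W.isInternal X)
      (p := fun x => Q ^ (X.dim - c) • T (F x) = Q ^ X.dim • F (T x)) ?_ ?_ x
    · intro i a ha
      by_cases hi : i = X.dim + c
      · subst hi
        obtain ⟨b, hb, rfl⟩ := surj_pow hHL hc ha
        rw [hsL t c b, map_smul, hT.1 _ (hFgr _ _ hb), hT.1 b hb, smul_smul, ← pow_add,
          Nat.sub_add_cancel hc]
      · rw [hT.2 i hi _ (hFgr _ _ ha), hT.2 i hi a ha, smul_zero, map_zero, smul_zero]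
    · intro a b ha hb
      rw [map_add, map_add, smul_add, ha, hb, map_add, map_add, smul_add]

lemma pi_gr {π : ℕ → Module.End W.K (W.H X)} (hπ : CProj W X π) {l : ℕ} (hl : l ≤ X.dim) {i : ℕ}
    {a : W.H X} (ha : a ∈ W.gr X i) : π l a ∈ W.gr X i := by
  by_cases hi : i = 2 * l
  · subst hi; exact H914.span_gr (hπ.mem l a)
  · rw [hπ.kill l hl a (fun c hc => bil_eq_zero ha (alg_gr hc) (by omega))]
    exact Submodule.zero_mem _

lemma piT_gr {π : ℕ → Module.End W.K (W.H X)} (hπ : CProj W X π) {i : ℕ}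
    {a : W.H X} (ha : a ∈ W.gr X i) : piT π a ∈ W.gr X i := by
  rw [piT, LinearMap.sub_apply, Module.End.one_apply, LinearMap.sum_apply]
  apply Submodule.sub_mem _ ha
  apply Submodule.sum_mem
  intro l hl
  exact pi_gr hπ (by have := Finset.mem_range.1 hl; omega) ha

/-- Powers of the Lefschetz operator are onto in the transcendental cohomology. -/
lemma surj_trans {π : ℕ → Module.End W.K (W.H X)} (hπ : CProj W X π) {D : X.Cycles}
    (hD : X.IsCyc 1 D) (hHL : HardLefschetz W X D) {i m : ℕ} (him : X.dim ≤ i + m) {b : W.H X}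
    (hb : b ∈ transcendental W X) (hb' : b ∈ W.gr X (i + 2 * m)) :
    ∃ a ∈ transcendental W X, a ∈ W.gr X i ∧ (LinearMap.mulLeft W.K (W.cl X D) ^ m) a = b := by
  set L := LinearMap.mulLeft W.K (W.cl X D) with hL
  have hLh : IsHom (W.gr X) 2 L := isHom_mulLeft W hD
  have hLR : L ∈ KS (ROp W X) 1 := Submodule.subset_span (rop_mulLeft hD)
  have hLm : L ^ m ∈ KOp W X X (m : ℤ) :=
    mem_KS_iff.1 (rop_opAlg.kspan.cast (rop_opAlg.kspan.pow hLR m) (by ring))
  obtain ⟨a, ha, hab⟩ : ∃ a ∈ W.gr X i, (L ^ m) a = b := by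
    by_cases hbig : 2 * X.dim < i + 2 * m
    · refine ⟨0, Submodule.zero_mem _, ?_⟩
      rw [W.gr_eq_bot X _ hbig] at hb'
      rw [map_zero, (Submodule.mem_bot _).1 hb']
    · obtain ⟨a, ha, hab⟩ := (hHL (2 * X.dim - (i + 2 * m)) (by omega)).2 b
        (by rw [show 2 * X.dim - (2 * X.dim - (i + 2 * m)) = i + 2 * m by omega]; exact hb')
      have h3 : (L ^ (i + m - X.dim)) a ∈ W.gr X i := by
        have := pow_L_mem hLh ha (i + m - X.dim)
        rwa [show 2 * X.dim - (i + 2 * m) + 2 * (i + m - X.dim) = i by omega] at this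
      refine ⟨_, h3, ?_⟩
      rw [← hab, ← Module.End.mul_apply, ← pow_add]
      congr 2
      omega
  refine ⟨piT π a, hπ.piT_trans a, piT_gr hπ ha, ?_⟩
  have h1 : b - (L ^ m) (piT π a) = ∑ l ∈ range (X.dim + 1), (L ^ m) (π l a) := by
    rw [← map_sum, ← hab, ← map_sub]
    congr 1
    rw [sub_eq_iff_eq_add']
    exact hπ.decomp a
  have h2 : b - (L ^ m) (piT π a) ∈ transcendental W X :=
    Submodule.sub_mem _ hb (KOp.trans hLm (hπ.piT_trans a))
  have h3 : piT π (b - (L ^ m) (piT π a)) = 0 := by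
    rw [h1, map_sum]
    apply Finset.sum_eq_zero
    intro l hl
    have h4 : (L ^ m) (π l a) ∈ spanCycles W X ((l + m : ℕ) : ℤ) := by
      have := KOp.map_span hLm (hπ.mem l a)
      rwa [Nat.cast_add]
    by_cases hlm : l + m ≤ X.dim
    · exact hπ.piT_span hlm h4
    · have h5 := H914.span_gr h4
      rw [W.gr_eq_bot X _ (by omega)] at h5
      rw [(Submodule.mem_bot _).1 h5, map_zero]
  rw [hπ.piT_fix h2, sub_eq_zero] at h3
  exact h3.symm

/-- **Operators of Tate type and degree at least zero are algebraic.** -/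
theorem kop_of_tateOp (hP : ∀ i, ROp W X 0 (proj (W.isInternal X) i)) {D : X.Cycles}
    (hD : X.IsCyc 1 D) (hHL : HardLefschetz W X D) (hDX : HomEqNum W X)
    (hTX : ∀ j, TateIn Φ X j) (hS : SimpleSpectrum Φ X) {m : ℕ}
    {y : Module.End W.K (W.H X)} (hy : TateOp Φ X (X.dim + m) y) :
    y ∈ KS (ROp W X) (m : ℤ) := by
  have hytr : ∀ a ∈ transcendental W X, y a ∈ transcendental W X := fun a ha => hy.map_trans hTX ha
  have hysp : ∀ (l : ℕ), ∀ u ∈ spanCycles W X l, y u ∈ spanCycles W X ((l + m : ℕ) : ℤ) := by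
    intro l u hu
    have := hy.map_span hTX hu
    rwa [show (l : ℤ) + ((X.dim + m : ℕ) : ℤ) - X.dim = ((l + m : ℕ) : ℤ) by push_cast; ring]
      at this
  obtain ⟨hyh, M, hM, h2⟩ := hy
  obtain ⟨s, hs, hsL⟩ := exists_L (Φ := Φ) hD
  obtain ⟨π, hπ⟩ := exists_cProj hDX
  have hOA := rop_opAlg (W := W) (X := X)
  have hKA := hOA.kspan
  set h := W.isInternal X with hh
  set L := LinearMap.mulLeft W.K (W.cl X D) with hL
  have hLh : IsHom (W.gr X) 2 L := isHom_mulLeft W hD
  set T := M * s with hT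
  have hTpos : 0 < T := Nat.mul_pos hM hs
  set F := frob Φ X T with hF
  set Q : W.K := (card Φ X T : W.K) with hQ
  have hQ0 : Q ≠ 0 := card_ne Φ T
  have hFL : ∀ x, F ((L ^ m) x) = Q ^ m • (L ^ m) (F x) := by
    intro x
    have := hsL M m x
    rwa [show s * M = T by rw [hT, mul_comm]] at this
  have hFy : ∀ x, F (y x) = Q ^ m • y (F x) := by
    intro x
    have h3 := h2 s x
    rw [← hT, ← hF, ← hQ, pow_add, mul_smul] at h3
    exact (smul_right_injective _ (pow_ne_zero X.dim hQ0) h3).symm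
  have hFR : F ∈ KS (ROp W X) 0 := Submodule.subset_span (rop_map _)
  have hLR : L ∈ KS (ROp W X) 1 := Submodule.subset_span (rop_mulLeft hD)
  have hLmR : L ^ m ∈ KS (ROp W X) (m : ℤ) := hKA.cast (hKA.pow hLR m) (by ring)
  have hLtr : ∀ a ∈ transcendental W X, (L ^ m) a ∈ transcendental W X := fun a ha =>
    KOp.trans (mem_KS_iff.1 hLmR) ha
  -- one degree
  have key : ∀ i, i ≤ 2 * X.dim → ∃ g : W.K[X], ∀ a ∈ transcendental W X ⊓ W.gr X i,
      y a = (L ^ m) (aeval F g a) := by
    intro i hi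
    obtain ⟨G, hG, hGs⟩ := hS T hTpos i
    obtain ⟨H, hH, hHs⟩ := hS T hTpos (i + 2 * m)
    have hLm : ∀ a ∈ transcendental W X ⊓ W.gr X i,
        (L ^ m) a ∈ transcendental W X ⊓ W.gr X (i + 2 * m) := fun a ha =>
      ⟨hLtr a ha.1, pow_L_mem hLh ha.2 m⟩
    have hym : ∀ a ∈ transcendental W X ⊓ W.gr X i,
        y a ∈ transcendental W X ⊓ W.gr X (i + 2 * m) := by
      intro a ha
      refine ⟨hytr a ha.1, ?_⟩
      have h3 := hyh i a (by rw [grZ_natCast]; exact ha.2)
      rwa [show (i : ℤ) + 2 * (((X.dim + m : ℕ) : ℤ) - X.dim) = ((i + 2 * m : ℕ) : ℤ) by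
        push_cast; ring, grZ_natCast] at h3
    set l : ↥(transcendental W X ⊓ W.gr X i) →ₗ[W.K] ↥(transcendental W X ⊓ W.gr X (i + 2 * m)) :=
      (L ^ m).restrict hLm with hl
    set y' : ↥(transcendental W X ⊓ W.gr X i) →ₗ[W.K] ↥(transcendental W X ⊓ W.gr X (i + 2 * m)) :=
      y.restrict hym with hy'
    have hls : Function.Injective l ∨ Function.Surjective l := by
      by_cases him : i + m ≤ X.dim
      · left
        rw [← LinearMap.ker_eq_bot, LinearMap.ker_eq_bot']
        intro a ha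
        apply Subtype.ext
        have h3 : (L ^ m) (a : W.H X) = 0 := congrArg Subtype.val ha
        apply (hHL i (by omega)).1 _ a.2.2
        have h4 : (L ^ (X.dim - i)) (a : W.H X) = 0 := by
          rw [show X.dim - i = (X.dim - i - m) + m by omega, pow_add, Module.End.mul_apply, h3,
            map_zero]
        exact h4
      · right
        intro b
        obtain ⟨a, ha, ha', hab⟩ := surj_trans hπ hD hHL (show X.dim ≤ i + m by omega) b.2.1 b.2.2
        exact ⟨⟨a, ha, ha'⟩, Subtype.ext hab⟩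
    obtain ⟨g, hg⟩ := exists_factor hGs hHs (κ := Q ^ m) (pow_ne_zero _ hQ0) (l := l) (y := y')
      (fun v => by
        apply Subtype.ext
        rw [hH, Submodule.coe_smul]
        change F ((L ^ m) v) = Q ^ m • (L ^ m) (G v : W.H X)
        rw [hFL, hG]; rfl)
      (fun v => by
        apply Subtype.ext
        rw [hH, Submodule.coe_smul]
        change F (y v) = Q ^ m • y (G v : W.H X)
        rw [hFy, hG]; rfl) hls
    refine ⟨g, fun a ha => ?_⟩
    have h3 := congrArg Subtype.val (hg ⟨a, ha⟩)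
    have h4 : ((aeval G g ⟨a, ha⟩ : ↥(transcendental W X ⊓ W.gr X i)) : W.H X) =
        aeval F g a := by
      have hGF : ∀ b : ↥(transcendental W X ⊓ W.gr X i),
          ((G b : ↥(transcendental W X ⊓ W.gr X i)) : W.H X) = F b := hG
      have hpow : ∀ r (b : ↥(transcendental W X ⊓ W.gr X i)),
          (((G ^ r) b : ↥(transcendental W X ⊓ W.gr X i)) : W.H X) = (F ^ r) b := by
        intro r
        induction r with
        | zero => intro b; rfl
        | succ r ih => intro b; rw [pow_succ, pow_succ, Module.End.mul_apply,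
            Module.End.mul_apply, ih, hGF]
      clear hg h3
      induction g using Polynomial.induction_on' with
      | add g g' ih ih' => rw [map_add, map_add, LinearMap.add_apply, LinearMap.add_apply,
          Submodule.coe_add, ih, ih']
      | monomial r c =>
        rw [aeval_monomial, aeval_monomial, Algebra.algebraMap_eq_smul_one, smul_mul_assoc,
          one_mul, Algebra.algebraMap_eq_smul_one, smul_mul_assoc, one_mul, LinearMap.smul_apply,
          LinearMap.smul_apply, Submodule.coe_smul, hpow]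
    change y a = (L ^ m) ((aeval G g ⟨a, ha⟩ : ↥(transcendental W X ⊓ W.gr X i)) : W.H X) at h3
    rw [h3, h4]
  choose! g hg using key
  have hsumT : y * piT π = ∑ i ∈ range (2 * X.dim + 1), (L ^ m * aeval F (g i) * proj h i * piT π) := by
    apply gr_ext h
    intro i a ha
    have hPa : piT π a ∈ W.gr X i := piT_gr hπ ha
    by_cases hi : i ≤ 2 * X.dim
    · rw [LinearMap.sum_apply, Finset.sum_eq_single i]
      · rw [Module.End.mul_apply, Module.End.mul_apply, Module.End.mul_apply,
          Module.End.mul_apply, proj_same h hPa, hg i hi _ ⟨hπ.piT_trans a, hPa⟩]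
      · intro j _ hj
        rw [Module.End.mul_apply, Module.End.mul_apply, proj_ne h hPa (Ne.symm hj), map_zero]
      · intro hn; exact absurd (Finset.mem_range.2 (by omega)) hn
    · rw [W.gr_eq_bot X i (by omega)] at ha
      rw [(Submodule.mem_bot _).1 ha, map_zero, map_zero]
  have hsum : y = y * piT π + ∑ l ∈ range (X.dim + 1), y * π l := by
    rw [← Finset.mul_sum, ← mul_add, piT, sub_add_cancel, mul_one]
  have hPR : piT π ∈ KS (ROp W X) 0 := mem_KS_iff.2 hπ.piT_mem
  rw [hsum, hsumT]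
  apply Submodule.add_mem
  · apply hKA.sum
    intro i _
    have h4 : aeval F (g i) ∈ KS (ROp W X) 0 := hOA.kspan_aeval hFR _
    exact hKA.cast (hKA.mul (hKA.mul (hKA.mul hLmR h4) (Submodule.subset_span (hP i))) hPR)
      (by ring)
  · apply hKA.sum
    intro l hl
    have hl' : l ≤ X.dim := by have := Finset.mem_range.1 hl; omega
    have h5 := kop_of_span hDX hπ hl' (l' := l + m) (hysp l)
    apply mem_KS_iff.2
    exact KOp.cast h5 (by push_cast; ring)

/-- If the Lambda operator is algebraic, all operators of Tate type are algebraic. -/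
theorem kop_of_lefschetzB (hP : ∀ i, ROp W X 0 (proj (W.isInternal X) i)) {D : X.Cycles}
    (hD : X.IsCyc 1 D) (hHL : HardLefschetz W X D) (hDX : HomEqNum W X)
    (hTX : ∀ j, TateIn Φ X j) (hS : SimpleSpectrum Φ X)
    (hB : LefschetzB W X D) {m : ℕ} (hm : m ≤ X.dim)
    {y : Module.End W.K (W.H X)} (hy : TateOp Φ X (X.dim - m) y) :
    y ∈ KS (ROp W X) (-(m : ℤ)) := by
  have hOA := rop_opAlg (W := W) (X := X)
  have hKA := hOA.kspan
  set h := W.isInternal X with hh
  set L := LinearMap.mulLeft W.K (W.cl X D) with hL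
  have hLh : IsHom (W.gr X) 2 L := isHom_mulLeft W hD
  obtain ⟨Φ', hΦ, hLam⟩ := lefschetzB_iff_rop.1 hB
  have hθ : ∀ c ≤ X.dim, ∃ θ, ROp W X (-(c : ℤ)) θ ∧
      ∀ a ∈ W.gr X (X.dim - c), θ ((L ^ c) a) = a := by
    intro c hc
    exact ⟨Φ' ^ c, hOA.cast (hOA.pow hΦ c) (by ring), fun a ha =>
      lam_pow_L_pow hLh W_hbd hHL hLam hc ha⟩
  have key : ∀ i ≤ 2 * X.dim, y * proj h i ∈ KS (ROp W X) (-(m : ℤ)) := by
    intro i hi
    have hyi : ∀ a ∈ W.gr X i, y a ∈ grZ (W.gr X) ((i : ℤ) - 2 * m) := by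
      intro a ha
      have h3 := hy.1 i a (by rw [grZ_natCast]; exact ha)
      rwa [show (i : ℤ) + 2 * (((X.dim - m : ℕ) : ℤ) - X.dim) = (i : ℤ) - 2 * m by
        push_cast [Nat.cast_sub hm]; ring] at h3
    by_cases hi1 : i < 2 * m
    · have h0 : y * proj h i = 0 := by
        apply LinearMap.ext
        intro a
        have h3 := hyi _ (H914.proj_mem h i a)
        rw [grZ_of_neg (by omega)] at h3
        exact (Submodule.mem_bot _).1 h3
      rw [h0]; exact Submodule.zero_mem _
    push Not at hi1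
    by_cases hi2 : i ≤ X.dim + m
    · obtain ⟨θ, hθR, hθ'⟩ := hθ (X.dim - (i - 2 * m)) (by omega)
      have hψ := hy.L_left hD (X.dim - (i - 2 * m))
      rw [show X.dim - m + (X.dim - (i - 2 * m)) = X.dim + (X.dim + m - i) by omega] at hψ
      have hψK := kop_of_tateOp hP hD hHL hDX hTX hS hψ
      have e1 : y * proj h i = θ * (L ^ (X.dim - (i - 2 * m)) * y) * proj h i := by
        apply LinearMap.ext
        intro a
        simp only [Module.End.mul_apply]
        have h3 := hyi _ (H914.proj_mem h i a)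
        rw [show (i : ℤ) - 2 * m = ((i - 2 * m : ℕ) : ℤ) by omega, grZ_natCast] at h3
        rw [hθ' _ (by rwa [show X.dim - (X.dim - (i - 2 * m)) = i - 2 * m by omega])]
      rw [e1]
      exact hKA.cast (hKA.mul (hKA.mul (Submodule.subset_span hθR) hψK)
        (Submodule.subset_span (hP i))) (by omega)
    · obtain ⟨θ, hθR, hθ'⟩ := hθ (i - X.dim) (by omega)
      have hψ := hy.L_right hD (i - X.dim)
      rw [show X.dim - m + (i - X.dim) = X.dim + (i - X.dim - m) by omega] at hψ
      have hψK := kop_of_tateOp hP hD hHL hDX hTX hS hψ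
      have e1 : y * proj h i = (y * L ^ (i - X.dim)) * θ * proj h i := by
        apply LinearMap.ext
        intro a
        simp only [Module.End.mul_apply]
        obtain ⟨b, hb, hab⟩ := surj_pow (n := X.dim) (c := i - X.dim) hHL (by omega)
          (b := proj h i a) (by
            rw [show X.dim + (i - X.dim) = i by omega]; exact H914.proj_mem h i a)
        rw [← hab, hθ' b hb]
      rw [e1]
      exact hKA.cast (hKA.mul (hKA.mul hψK (Submodule.subset_span hθR))
        (Submodule.subset_span (hP i))) (by omega)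
  have hsum : y = ∑ i ∈ range (2 * X.dim + 1), (y * proj h i) := by
    rw [← Finset.mul_sum, sum_proj h (N := 2 * X.dim + 1) W_hbd, mul_one]
  rw [hsum]
  exact hKA.sum (fun i hi => key i (by rw [Finset.mem_range] at hi; omega))

/-- **The square of a variety with simple Frobenius spectrum.** -/
theorem main_square {D : X.Cycles} (hD : X.IsCyc 1 D) (hHL : HardLefschetz W X D)
    (hK : KunnethStd W X) (hDX : HomEqNum W X) (hTX : ∀ j, TateIn Φ X j)
    (hS : SimpleSpectrum Φ X) :
    (∀ c, X.dim ≤ c → TateIn Φ (X.prod X) c) ∧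
      ((∀ c, TateIn Φ (X.prod X) c) ↔ LefschetzB W X D) := by
  have hP : ∀ i, ROp W X 0 (proj (W.isInternal X) i) := fun i => kunneth_rop hK i
  have hspan : ∀ (c : ℕ) (x : W.H (X.prod X)), W.corr x ∈ KS (ROp W X) ((c : ℤ) - X.dim) →
      x ∈ spanCycles W (X.prod X) c := by
    intro c x hx
    obtain ⟨γ, hγ, hγ'⟩ := mem_KOp_iff.1 (mem_KS_iff.1 hx)
    have h1 : γ - x = 0 := by
      apply corr_inj
      rw [corr_sub'', hγ', sub_self]
    rw [← sub_eq_zero.1 h1]
    rwa [show (X.dim : ℤ) + ((c : ℤ) - X.dim) = c by ring] at hγ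
  have h1 : ∀ c, X.dim ≤ c → TateIn Φ (X.prod X) c := by
    intro c hc x hx
    apply hspan
    obtain ⟨m, rfl⟩ := Nat.exists_eq_add_of_le hc
    have := kop_of_tateOp hP hD hHL hDX hTX hS (tateOp_iff.1 hx)
    rwa [show ((X.dim + m : ℕ) : ℤ) - X.dim = m by push_cast; ring]
  refine ⟨h1, ?_, ?_⟩
  · intro hT
    apply lefschetzB_of_inj hD hHL
    intro c hc
    obtain ⟨T, hTi⟩ := exists_isInv (W.isInternal X) (isHom_mulLeft W hD) hHL hc
    refine ⟨T, ?_, ?_⟩
    · set γ := (corrEquiv W X).symm T with hγ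
      have hγT : W.corr γ = T := (corrEquiv W X).apply_symm_apply T
      have h2 : IsTate Φ (X.prod X) (X.dim - c) γ := by
        rw [tateOp_iff, hγT]
        exact tateOp_isInv hD hHL hc hTi
      rw [← hγT]
      apply mem_KOp_iff.2
      refine ⟨γ, ?_, rfl⟩
      have := hT _ γ h2
      rwa [show (X.dim : ℤ) + -(c : ℤ) = ((X.dim - c : ℕ) : ℤ) by omega]
    · intro a ha h0
      obtain ⟨b, hb, rfl⟩ := surj_pow hHL hc ha
      rw [hTi.1 b hb] at h0
      rw [h0, map_zero]
  · intro hB c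
    rcases le_or_gt X.dim c with hc | hc
    · exact h1 c hc
    · intro x hx
      apply hspan
      have h2 := tateOp_iff.1 hx
      rw [show c = X.dim - (X.dim - c) by omega] at h2
      have := kop_of_lefschetzB hP hD hHL hDX hTX hS hB (m := X.dim - c) (by omega) h2
      rwa [show (c : ℤ) - X.dim = -((X.dim - c : ℕ) : ℤ) by omega]

end Pool.Agent.Q56.MF
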